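import Mathlib

section

/-!
A compact ultrametric space with a paradoxical decomposition into Borel pieces.

Points are sequences `x` of pairs of bits.  The first bits of `x` form a 2-adic integer, the second
bits form a finitely supported sequence, the size of the support being bounded in terms of the
position `l` of the first second-bit `1` and of the first bits before `l`.
-/

set_option autoImplicit false

namespace Pool.Agent.Lib.MP_91c8d1_an

/-- Sequences of pairs of bits. -/
abbrev Sq := ℕ → Bool × Bool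

/-- The number whose binary digits are the first bits before position `l`. -/
def val (x : Sq) : ℕ → ℕ
  | 0 => 0
  | l + 1 => val x l + (if (x l).1 = true then 2 ^ l else 0)

/-- The bound for the support of the second bits. -/
def bd (x : Sq) (l : ℕ) : ℕ := 3 * (2 ^ (l + 1) - val x l)

/-- `l` is the position of the first nonzero second bit of `x`. -/
def IsFst (x : Sq) (l : ℕ) : Prop := (x l).2 = true ∧ ∀ j < l, (x j).2 = false

/-- The points of the space. -/
def Good (x : Sq) : Prop := ∀ l k, IsFst x l → bd x l ≤ k → (x k).2 = false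

/-- `x` and `y` agree before `N`. -/
def Agr (N : ℕ) (x y : Sq) : Prop := ∀ k < N, x k = y k

theorem Agr.mono {M N : ℕ} {x y : Sq} (h : Agr N x y) (hMN : M ≤ N) : Agr M x y :=
  fun k hk => h k (lt_of_lt_of_le hk hMN)

theorem Agr.symm {N : ℕ} {x y : Sq} (h : Agr N x y) : Agr N y x := fun k hk => (h k hk).symm

theorem val_lt (x : Sq) (l : ℕ) : val x l < 2 ^ l := by
  induction l with
  | zero => simp [val]
  | succ l ih =>
    rw [val, pow_succ]
    split_ifs <;> omega

theorem val_congr {x y : Sq} {l : ℕ} (h : ∀ j < l, (x j).1 = (y j).1) : val x l = val y l := by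
  induction l with
  | zero => rfl
  | succ l ih =>
    rw [val, val, ih (fun j hj => h j (by omega)), h l (by omega)]

theorem val_zero {x : Sq} {l : ℕ} (h : ∀ j < l, (x j).1 = false) : val x l = 0 := by
  induction l with
  | zero => rfl
  | succ l ih =>
    rw [val, ih (fun j hj => h j (by omega)), h l (by omega)]
    simp

theorem bd_congr {x y : Sq} {l : ℕ} (h : ∀ j < l, (x j).1 = (y j).1) : bd x l = bd y l := by
  rw [bd, bd, val_congr h]

theorem bd_zero {x : Sq} {l : ℕ} (h : ∀ j < l, (x j).1 = false) : bd x l = 3 * 2 ^ (l + 1) := by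
  rw [bd, val_zero h]
  rfl

theorem lt_bd (x : Sq) (l : ℕ) : l + 2 < bd x l := by
  have h1 := val_lt x l
  have h2 : l < 2 ^ l := Nat.lt_two_pow_self
  rw [bd, pow_succ]
  omega

theorem IsFst.unique {x : Sq} {l m : ℕ} (h : IsFst x l) (h' : IsFst x m) : l = m := by
  rcases lt_trichotomy l m with hlt | heq | hgt
  · have := h'.2 l hlt
    rw [h.1] at this
    exact absurd this (by simp)
  · exact heq
  · have := h.2 m hgt
    rw [h'.1] at this
    exact absurd this (by simp)

theorem exists_isFst {x : Sq} (h : ∃ k, (x k).2 = true) : ∃ l, IsFst x l := by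
  classical
  refine ⟨Nat.find h, Nat.find_spec h, fun j hj => ?_⟩
  have := Nat.find_min h hj
  simpa using this

/-- The position of the first nonzero second bit. -/
noncomputable def fs (x : Sq) : ℕ := sInf {l | (x l).2 = true}

theorem IsFst.fs_eq {x : Sq} {l : ℕ} (h : IsFst x l) : fs x = l := by
  unfold fs
  apply le_antisymm
  · exact Nat.sInf_le h.1
  · by_contra hlt
    push Not at hlt
    have hne : {l | (x l).2 = true}.Nonempty := ⟨l, h.1⟩
    have h1 := Nat.sInf_mem hne
    have h2 := h.2 _ hlt
    rw [Set.mem_ofPred_eq] at h1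
    rw [h1] at h2
    exact absurd h2 (by simp)

theorem IsFst.of_agr {x y : Sq} {l N : ℕ} (h : IsFst x l) (hN : l < N) (ha : Agr N x y) :
    IsFst y l := by
  refine ⟨?_, fun j hj => ?_⟩
  · rw [← ha l hN]; exact h.1
  · rw [← ha j (by omega)]; exact h.2 j hj

/-! ### The 2-adic decrement -/

/-- Subtract one from the 2-adic integer of first bits. -/
def dc (x : Sq) (k : ℕ) : Bool := xor (x k).1 (decide (∀ j < k, (x j).1 = false))

theorem dc_eq_zero_case {x : Sq} {k : ℕ} (h : ∀ j < k, (x j).1 = false) : dc x k = !(x k).1 := by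
  rw [dc, decide_eq_true h]
  simp

theorem dc_eq_of_exists {x : Sq} {k : ℕ} (h : ∃ j < k, (x j).1 = true) : dc x k = (x k).1 := by
  have : ¬ ∀ j < k, (x j).1 = false := by
    obtain ⟨j, hj, hx⟩ := h
    intro hh
    have := hh j hj
    rw [hx] at this
    exact absurd this (by simp)
  rw [dc, decide_eq_false this]
  simp

theorem dc_congr {x y : Sq} {k : ℕ} (h : ∀ j ≤ k, (x j).1 = (y j).1) : dc x k = dc y k := by
  have h1 : (∀ j < k, (x j).1 = false) ↔ (∀ j < k, (y j).1 = false) := by
    constructor
    · intro hh j hj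
      rw [← h j hj.le]; exact hh j hj
    · intro hh j hj
      rw [h j hj.le]; exact hh j hj
  rw [dc, dc, h k le_rfl]
  congr 1
  exact decide_eq_decide.2 h1

theorem dc_inj {x y : Sq} {N : ℕ} (h : ∀ k < N, dc x k = dc y k) : ∀ k < N, (x k).1 = (y k).1 := by
  intro k
  induction k using Nat.strong_induction_on with
  | _ k ih =>
    intro hk
    have h1 : (∀ j < k, (x j).1 = false) ↔ (∀ j < k, (y j).1 = false) := by
      constructor
      · intro hh j hj
        rw [← ih j hj (by omega)]; exact hh j hj
      · intro hh j hj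
        rw [ih j hj (by omega)]; exact hh j hj
    have h2 := h k hk
    rw [dc, dc, decide_eq_decide.2 h1] at h2
    revert h2
    cases (x k).1 <;> cases (y k).1 <;> cases (decide (∀ j < k, (y j).1 = false)) <;> simp

/-- If the first bits of `y` are those of the decrement of `x`. -/
theorem val_dc_zero {x y : Sq} (hy : ∀ k, (y k).1 = dc x k) {l : ℕ}
    (h : ∀ j < l, (x j).1 = false) : val y l = 2 ^ l - 1 := by
  induction l with
  | zero => rfl
  | succ l ih =>
    rw [val, ih (fun j hj => h j (by omega)), hy l,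
      dc_eq_zero_case (fun j hj => h j (by omega)), h l (by omega)]
    have : 0 < 2 ^ l := by positivity
    rw [pow_succ]
    simp
    omega

theorem val_dc {x y : Sq} (hy : ∀ k, (y k).1 = dc x k) {l : ℕ}
    (h : ∃ j < l, (x j).1 = true) : val y l + 1 = val x l := by
  induction l with
  | zero => obtain ⟨j, hj, _⟩ := h; omega
  | succ l ih =>
    by_cases h' : ∃ j < l, (x j).1 = true
    · rw [val, val, hy l, dc_eq_of_exists h', ← ih h']
      ring
    · push Not at h'
      have h0 : ∀ j < l, (x j).1 = false := fun j hj => by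
        have := h' j hj
        simpa using this
      obtain ⟨j, hj, hx⟩ := h
      have hjl : j = l := by
        by_contra hne
        have := h0 j (by omega)
        rw [hx] at this
        exact absurd this (by simp)
      subst hjl
      rw [val, val, val_dc_zero hy h0, val_zero h0, hy j, dc_eq_zero_case h0, hx]
      have : 0 < 2 ^ j := by positivity
      simp
      omega

end Pool.Agent.Lib.MP_91c8d1_an
end

section

/-!
The pieces of the paradoxical decomposition and the partial isometries.
-/

set_option autoImplicit false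

namespace Pool.Agent.Lib.MP_91c8d1_an

/-! ### The pieces -/

/-- Index set of the pieces. -/
abbrev Ix := Option (Option (Bool × Bool))

/-- The pieces. -/
def Pc : Ix → Set Sq
  | none => {x | ∀ k, (x k).2 = false}
  | some none => {x | ∃ l, IsFst x l ∧ ∃ j < l, (x j).1 = true}
  | some (some a) => {x | ∃ l, IsFst x l ∧ (∀ j < l, (x j).1 = false) ∧ (x l).1 = a.1 ∧
      (x (l + 1)).2 = a.2}

/-- The first map, on the points without nonzero second bits. -/
def M0 (b : Bool) (x : Sq) : Sq := fun k =>
  ((x k).1, if k = 0 then true else if k = 1 then b else false)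

/-- The second map: decrement of the first bits, two marks after the support. -/
noncomputable def M1 (b : Bool) (x : Sq) : Sq := fun k =>
  (dc x k, if k = bd x (fs x) then true else if k = bd x (fs x) + 1 then b else (x k).2)

/-- The third map: the first second-bit moves one step to the right. -/
noncomputable def M2 (b : Bool) (a : Bool × Bool) (x : Sq) : Sq := fun k =>
  (if k = fs x then true else (x k).1,
    if k = fs x then false else if k = fs x + 1 then true
    else if k = bd x (fs x) then b else if k = bd x (fs x) + 1 then a.1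
    else if k = bd x (fs x) + 2 then a.2 else (x k).2)

/-- The maps. -/
noncomputable def Mp (b : Bool) : Ix → Sq → Sq
  | none => M0 b
  | some none => M1 b
  | some (some a) => M2 b a

theorem exists_mem_Pc (x : Sq) : ∃ i, x ∈ Pc i := by
  by_cases h : ∃ k, (x k).2 = true
  · obtain ⟨l, hl⟩ := exists_isFst h
    by_cases h' : ∃ j < l, (x j).1 = true
    · exact ⟨some none, l, hl, h'⟩
    · push Not at h'
      exact ⟨some (some ((x l).1, (x (l + 1)).2)), l, hl,
        fun j hj => by simpa using h' j hj, rfl, rfl⟩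
  · push Not at h
    exact ⟨none, fun k => by simpa using h k⟩

/-! ### First map -/

theorem M0_isFst (b : Bool) (x : Sq) : IsFst (M0 b x) 0 :=
  ⟨by simp [M0], fun j hj => absurd hj (Nat.not_lt_zero j)⟩

theorem M0_good (b : Bool) (x : Sq) : Good (M0 b x) := by
  intro l k hl hk
  have h0 : l = 0 := hl.unique (M0_isFst b x)
  subst h0
  have h1 := lt_bd (M0 b x) 0
  simp only [M0]
  rw [if_neg (by omega), if_neg (by omega)]

theorem M0_agr {b : Bool} {x y : Sq} (hx : x ∈ Pc none) (hy : y ∈ Pc none) (N : ℕ) :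
    Agr N x y ↔ Agr N (M0 b x) (M0 b y) := by
  constructor
  · intro h k hk
    simp only [M0]
    rw [h k hk]
  · intro h k hk
    have h1 := congrArg Prod.fst (h k hk)
    simp only [M0] at h1
    exact Prod.ext h1 (by rw [hx k, hy k])

/-! ### Second map -/

theorem M1_snd_of_le {b : Bool} {x : Sq} {l : ℕ} (hl : IsFst x l) {k : ℕ} (hk : k ≤ l + 2) :
    (M1 b x k).2 = (x k).2 := by
  have h1 := lt_bd x l
  simp only [M1]
  rw [hl.fs_eq, if_neg (by omega), if_neg (by omega)]

theorem M1_isFst {b : Bool} {x : Sq} {l : ℕ} (hl : IsFst x l) : IsFst (M1 b x) l := by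
  refine ⟨?_, fun j hj => ?_⟩
  · rw [M1_snd_of_le hl (by omega)]; exact hl.1
  · rw [M1_snd_of_le hl (by omega)]; exact hl.2 j hj

theorem M1_bd {b : Bool} {x : Sq} {l : ℕ} (h : ∃ j < l, (x j).1 = true) :
    bd (M1 b x) l = bd x l + 3 := by
  have h1 := val_dc (x := x) (y := M1 b x) (fun k => rfl) h
  have h2 := val_lt x l
  rw [bd, bd, pow_succ]
  omega

theorem M1_good {b : Bool} {x : Sq} (hg : Good x) (hx : x ∈ Pc (some none)) :
    Good (M1 b x) := by
  obtain ⟨l, hl, hj⟩ := hx
  intro m k hm hk
  have h0 : m = l := hm.unique (M1_isFst hl)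
  subst h0
  rw [M1_bd hj] at hk
  simp only [M1]
  rw [hl.fs_eq, if_neg (by omega), if_neg (by omega)]
  exact hg m k hl (by omega)

theorem M1_agr {b : Bool} {x y : Sq} (hgx : Good x) (hgy : Good y) (hx : x ∈ Pc (some none))
    (hy : y ∈ Pc (some none)) (N : ℕ) :
    Agr N x y ↔ Agr N (M1 b x) (M1 b y) := by
  obtain ⟨l, hl, -⟩ := hx
  obtain ⟨m, hm, -⟩ := hy
  constructor
  · intro h k hk
    refine Prod.ext ?_ ?_
    · exact dc_congr (fun j hj => by rw [h j (by omega)])
    · by_cases hlN : l < N
      · have hml : m = l := hm.unique (hl.of_agr hlN h)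
        subst hml
        have hbd : bd x m = bd y m := bd_congr (fun j hj => by rw [h j (by omega)])
        simp only [M1]
        rw [hl.fs_eq, hm.fs_eq, hbd, h k hk]
      · have hmN : ¬ m < N := by
          intro hmN
          have := hl.unique (hm.of_agr hmN h.symm)
          omega
        rw [M1_snd_of_le hl (by omega), M1_snd_of_le hm (by omega), h k hk]
  · intro h
    have h1 : ∀ k < N, (x k).1 = (y k).1 := dc_inj (fun k hk => congrArg Prod.fst (h k hk))
    intro k hk
    refine Prod.ext (h1 k hk) ?_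
    have hl' := M1_isFst (b := b) hl
    have hm' := M1_isFst (b := b) hm
    by_cases hlN : l < N
    · have hml : m = l := hm'.unique (hl'.of_agr hlN h)
      subst hml
      have hbd : bd x m = bd y m := bd_congr (fun j hj => h1 j (by omega))
      have h2 := congrArg Prod.snd (h k hk)
      simp only [M1] at h2
      rw [hl.fs_eq, hm.fs_eq, hbd] at h2
      by_cases hk1 : bd y m ≤ k
      · rw [hgx m k hl (by omega), hgy m k hm hk1]
      · rw [if_neg (by omega), if_neg (by omega), if_neg (by omega), if_neg (by omega)] at h2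
        exact h2
    · have hmN : ¬ m < N := by
        intro hmN
        have := hl'.unique (hm'.of_agr hmN h.symm)
        omega
      rw [hl.2 k (by omega), hm.2 k (by omega)]

/-! ### Third map -/

theorem M2_isFst {b : Bool} {a : Bool × Bool} {x : Sq} {l : ℕ} (hl : IsFst x l) :
    IsFst (M2 b a x) (l + 1) := by
  have h1 := lt_bd x l
  refine ⟨?_, fun j hj => ?_⟩
  · simp only [M2]
    rw [hl.fs_eq, if_neg (by omega), if_pos rfl]
  · simp only [M2]
    rw [hl.fs_eq]
    by_cases hjl : j = l
    · rw [if_pos hjl]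
    · rw [if_neg hjl, if_neg (by omega), if_neg (by omega), if_neg (by omega), if_neg (by omega)]
      exact hl.2 j (by omega)

theorem M2_val {b : Bool} {a : Bool × Bool} {x : Sq} {l : ℕ} (hl : IsFst x l)
    (h0 : ∀ j < l, (x j).1 = false) : val (M2 b a x) (l + 1) = 2 ^ l := by
  rw [val, val_zero (l := l)]
  · simp [M2, hl.fs_eq]
  · intro j hj
    simp only [M2]
    rw [hl.fs_eq, if_neg (by omega)]
    exact h0 j hj

theorem M2_bd {b : Bool} {a : Bool × Bool} {x : Sq} {l : ℕ} (hl : IsFst x l)
    (h0 : ∀ j < l, (x j).1 = false) : bd x l + 3 ≤ bd (M2 b a x) (l + 1) := by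
  rw [bd_zero h0, bd, M2_val hl h0]
  have : 0 < 2 ^ l := by positivity
  rw [pow_succ, pow_succ]
  omega

theorem M2_good {b : Bool} {a : Bool × Bool} {x : Sq} (hg : Good x)
    (hx : x ∈ Pc (some (some a))) : Good (M2 b a x) := by
  obtain ⟨l, hl, h0, -, -⟩ := hx
  intro m k hm hk
  have h1 : m = l + 1 := hm.unique (M2_isFst hl)
  subst h1
  have h2 := M2_bd (b := b) (a := a) hl h0
  have h3 := lt_bd x l
  simp only [M2]
  rw [hl.fs_eq, if_neg (by omega), if_neg (by omega), if_neg (by omega), if_neg (by omega),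
    if_neg (by omega)]
  exact hg l k hl (by omega)

theorem M2_agr {b : Bool} {a : Bool × Bool} {x y : Sq} (hgx : Good x) (hgy : Good y)
    (hx : x ∈ Pc (some (some a))) (hy : y ∈ Pc (some (some a))) (N : ℕ) :
    Agr N x y ↔ Agr N (M2 b a x) (M2 b a y) := by
  obtain ⟨l, hl, hl0, hl1, hl2⟩ := hx
  obtain ⟨m, hm, hm0, hm1, hm2⟩ := hy
  have hbl := lt_bd x l
  have hbm := lt_bd y m
  rcases lt_trichotomy l m with hlt | heq | hgt
  · -- both sides mean N ≤ l
    have e1 : Agr N x y ↔ N ≤ l := by
      constructor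
      · intro h
        by_contra hN
        have := h l (by omega)
        have h2 := hm.2 l hlt
        rw [← this, hl.1] at h2
        exact absurd h2 (by simp)
      · intro h k hk
        exact Prod.ext (by rw [hl0 k (by omega), hm0 k (by omega)])
          (by rw [hl.2 k (by omega), hm.2 k (by omega)])
    have e2 : Agr N (M2 b a x) (M2 b a y) ↔ N ≤ l := by
      constructor
      · intro h
        by_contra hN
        have h3 := congrArg Prod.fst (h l (by omega))
        simp only [M2] at h3
        rw [hl.fs_eq, hm.fs_eq, if_pos rfl, if_neg (by omega), hm0 l hlt] at h3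
        exact absurd h3 (by simp)
      · intro h k hk
        simp only [M2]
        rw [hl.fs_eq, hm.fs_eq, if_neg (by omega), if_neg (by omega), if_neg (by omega),
          if_neg (by omega), if_neg (by omega), if_neg (by omega), if_neg (by omega),
          if_neg (by omega), if_neg (by omega), if_neg (by omega), if_neg (by omega),
          if_neg (by omega)]
        exact Prod.ext (by rw [hl0 k (by omega), hm0 k (by omega)])
          (by rw [hl.2 k (by omega), hm.2 k (by omega)])
    rw [e1, e2]
  · subst heq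
    have hbd : bd x l = bd y l := by rw [bd_zero hl0, bd_zero hm0]
    constructor
    · intro h k hk
      simp only [M2]
      rw [hl.fs_eq, hm.fs_eq, hbd, h k hk]
    · intro h k hk
      have h1 := congrArg Prod.fst (h k hk)
      have h2 := congrArg Prod.snd (h k hk)
      simp only [M2] at h1 h2
      rw [hl.fs_eq, hm.fs_eq] at h1
      rw [hl.fs_eq, hm.fs_eq, hbd] at h2
      by_cases hkl : k = l
      · subst hkl
        exact Prod.ext (by rw [hl1, hm1]) (by rw [hl.1, hm.1])
      · rw [if_neg hkl, if_neg hkl] at h1 h2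
        refine Prod.ext h1 ?_
        by_cases hkl1 : k = l + 1
        · subst hkl1
          rw [hl2, hm2]
        · rw [if_neg hkl1, if_neg hkl1] at h2
          by_cases hk1 : bd y l ≤ k
          · rw [hgx l k hl (by omega), hgy l k hm hk1]
          · rw [if_neg (by omega), if_neg (by omega), if_neg (by omega), if_neg (by omega),
              if_neg (by omega), if_neg (by omega)] at h2
            exact h2
  · have e1 : Agr N x y ↔ N ≤ m := by
      constructor
      · intro h
        by_contra hN
        have := h m (by omega)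
        have h2 := hl.2 m hgt
        rw [this, hm.1] at h2
        exact absurd h2 (by simp)
      · intro h k hk
        exact Prod.ext (by rw [hl0 k (by omega), hm0 k (by omega)])
          (by rw [hl.2 k (by omega), hm.2 k (by omega)])
    have e2 : Agr N (M2 b a x) (M2 b a y) ↔ N ≤ m := by
      constructor
      · intro h
        by_contra hN
        have h3 := congrArg Prod.fst (h m (by omega))
        simp only [M2] at h3
        rw [hl.fs_eq, hm.fs_eq, if_neg (by omega), if_pos rfl, hl0 m hgt] at h3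
        exact absurd h3 (by simp)
      · intro h k hk
        simp only [M2]
        rw [hl.fs_eq, hm.fs_eq, if_neg (by omega), if_neg (by omega), if_neg (by omega),
          if_neg (by omega), if_neg (by omega), if_neg (by omega), if_neg (by omega),
          if_neg (by omega), if_neg (by omega), if_neg (by omega), if_neg (by omega),
          if_neg (by omega)]
        exact Prod.ext (by rw [hl0 k (by omega), hm0 k (by omega)])
          (by rw [hl.2 k (by omega), hm.2 k (by omega)])
    rw [e1, e2]

/-! ### Disjointness -/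

theorem Mp_isFst {b : Bool} {i : Ix} {x : Sq} (hx : x ∈ Pc i) :
    (i = none ∧ IsFst (Mp b i x) 0) ∨
    (∃ l, i = some none ∧ IsFst x l ∧ IsFst (Mp b i x) l ∧ ∃ j < l, (x j).1 = true) ∨
    (∃ a l, i = some (some a) ∧ IsFst x l ∧ IsFst (Mp b i x) (l + 1) ∧
      (∀ j < l, (x j).1 = false)) := by
  match i with
  | none => exact Or.inl ⟨rfl, M0_isFst b x⟩
  | some none =>
    obtain ⟨l, hl, hj⟩ := hx
    exact Or.inr (Or.inl ⟨l, rfl, hl, M1_isFst hl, hj⟩)
  | some (some a) =>
    obtain ⟨l, hl, h0, -, -⟩ := hx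
    exact Or.inr (Or.inr ⟨a, l, rfl, hl, M2_isFst hl, h0⟩)

theorem M1_eq {b b' : Bool} {x x' : Sq} {l : ℕ} (hl : IsFst x l) (hl' : IsFst x' l)
    (h : M1 b x = M1 b' x') : b = b' := by
  have h1 : ∀ k < l, (x k).1 = (x' k).1 := dc_inj (fun k _ => congrArg Prod.fst (congrFun h k))
  have hbd : bd x l = bd x' l := bd_congr h1
  have h2 := congrArg Prod.snd (congrFun h (bd x l + 1))
  simp only [M1] at h2
  rw [hl.fs_eq, hl'.fs_eq, ← hbd] at h2
  rw [if_neg (by omega), if_pos rfl, if_neg (by omega), if_pos rfl] at h2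
  exact h2

theorem M2_eq {b b' : Bool} {a a' : Bool × Bool} {x x' : Sq} {l : ℕ} (hl : IsFst x l)
    (hl' : IsFst x' l) (h0 : ∀ j < l, (x j).1 = false) (h0' : ∀ j < l, (x' j).1 = false)
    (h : M2 b a x = M2 b' a' x') : b = b' ∧ a = a' := by
  have hbd : bd x l = bd x' l := by rw [bd_zero h0, bd_zero h0']
  have hb := lt_bd x l
  have e0 := congrArg Prod.snd (congrFun h (bd x l))
  have e1 := congrArg Prod.snd (congrFun h (bd x l + 1))
  have e2 := congrArg Prod.snd (congrFun h (bd x l + 2))
  simp only [M2] at e0 e1 e2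
  rw [hl.fs_eq, hl'.fs_eq, ← hbd] at e0 e1 e2
  rw [if_neg (by omega), if_neg (by omega), if_pos rfl, if_neg (by omega), if_neg (by omega),
    if_pos rfl] at e0
  rw [if_neg (by omega), if_neg (by omega), if_neg (by omega), if_pos rfl, if_neg (by omega),
    if_neg (by omega), if_neg (by omega), if_pos rfl] at e1
  rw [if_neg (by omega), if_neg (by omega), if_neg (by omega), if_neg (by omega), if_pos rfl,
    if_neg (by omega), if_neg (by omega), if_neg (by omega), if_neg (by omega), if_pos rfl] at e2
  exact ⟨e0, Prod.ext e1 e2⟩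

theorem M1_ne_M2 {b b' : Bool} {a : Bool × Bool} {x x' : Sq} {l : ℕ} (hl : IsFst x (l + 1))
    (hx : ∃ j < l + 1, (x j).1 = true) (hl' : IsFst x' l) (hg' : Good x')
    (h0' : ∀ j < l, (x' j).1 = false) : M1 b x ≠ M2 b' a x' := by
  intro h
  have hv := val_dc (x := x) (y := M1 b x) (fun k => rfl) hx
  rw [h, M2_val hl' h0'] at hv
  have hlt := val_lt x (l + 1)
  have hbd : bd x (l + 1) = 3 * (2 ^ (l + 2) - (2 ^ l + 1)) := by rw [bd, ← hv]
  have hbd' := bd_zero h0'
  have e := congrArg Prod.snd (congrFun h (bd x (l + 1)))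
  have hge : bd x' l + 3 ≤ bd x (l + 1) := by
    rw [hbd, hbd']
    rw [← hv] at hlt
    rw [pow_succ] at hlt
    rw [pow_succ, pow_succ]
    omega
  have hb := lt_bd x' l
  simp only [M1, M2] at e
  rw [hl.fs_eq, hl'.fs_eq, if_pos rfl, if_neg (by omega), if_neg (by omega), if_neg (by omega),
    if_neg (by omega), if_neg (by omega), hg' l _ hl' (by omega)] at e
  exact absurd e (by simp)

theorem Mp_disj {b b' : Bool} {i i' : Ix} {x x' : Sq} (hg : Good x) (hg' : Good x')
    (hx : x ∈ Pc i) (hx' : x' ∈ Pc i') (h : Mp b i x = Mp b' i' x') : b = b' ∧ i = i' := by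
  rcases Mp_isFst (b := b) hx with ⟨hi, h1⟩ | ⟨l, hi, h1, h2, h3⟩ | ⟨a, l, hi, h1, h2, h3⟩
  · rcases Mp_isFst (b := b') hx' with ⟨hi', h1'⟩ | ⟨l', hi', h1', h2', h3'⟩ |
      ⟨a', l', hi', h1', h2', h3'⟩
    · subst hi; subst hi'
      refine ⟨?_, rfl⟩
      have e := congrArg Prod.snd (congrFun h 1)
      simpa [Mp, M0] using e
    · rw [← h] at h2'
      have := h1.unique h2'
      subst this
      obtain ⟨j, hj, -⟩ := h3'
      omega
    · rw [← h] at h2'
      have := h1.unique h2'
      omega
  · rcases Mp_isFst (b := b') hx' with ⟨hi', h1'⟩ | ⟨l', hi', h1', h2', h3'⟩ |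
      ⟨a', l', hi', h1', h2', h3'⟩
    · rw [h] at h2
      have := h2.unique h1'
      subst this
      obtain ⟨j, hj, -⟩ := h3
      omega
    · rw [← h] at h2'
      have := h2.unique h2'
      subst this
      subst hi; subst hi'
      exact ⟨M1_eq h1 h1' h, rfl⟩
    · rw [← h] at h2'
      have := h2.unique h2'
      subst this
      subst hi; subst hi'
      exact absurd h (M1_ne_M2 h1 h3 h1' hg' h3')
  · rcases Mp_isFst (b := b') hx' with ⟨hi', h1'⟩ | ⟨l', hi', h1', h2', h3'⟩ |
      ⟨a', l', hi', h1', h2', h3'⟩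
    · rw [h] at h2
      have := h2.unique h1'
      omega
    · rw [← h] at h2'
      have := h2'.unique h2
      subst this
      subst hi; subst hi'
      exact absurd h.symm (M1_ne_M2 h1' h3' h1 hg h3)
    · rw [← h] at h2'
      have := h2.unique h2'
      have hll : l = l' := by omega
      subst hll
      subst hi; subst hi'
      obtain ⟨e1, e2⟩ := M2_eq h1 h1' h3 h3' h
      exact ⟨e1, by rw [e2]⟩

theorem Mp_good {b : Bool} {i : Ix} {x : Sq} (hg : Good x) (hx : x ∈ Pc i) :
    Good (Mp b i x) := by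
  match i with
  | none => exact M0_good b x
  | some none => exact M1_good hg hx
  | some (some a) => exact M2_good hg hx

theorem Mp_agr {b : Bool} {i : Ix} {x y : Sq} (hgx : Good x) (hgy : Good y) (hx : x ∈ Pc i)
    (hy : y ∈ Pc i) (N : ℕ) : Agr N x y ↔ Agr N (Mp b i x) (Mp b i y) := by
  match i with
  | none => exact M0_agr hx hy N
  | some none => exact M1_agr hgx hgy hx hy N
  | some (some a) => exact M2_agr hgx hgy hx hy N

end Pool.Agent.Lib.MP_91c8d1_an
end

section

/-!
The metric, compactness, measurability of the pieces, and the paradoxical decomposition.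
-/

set_option autoImplicit false

namespace Pool.Agent.Lib.MP_91c8d1_an

/-! ### A general lemma -/

/-- Two disjoint families of partial isometries defined on the pieces of a finite Borel partition
give a paradoxical decomposition. -/
theorem paradox_of {X : Type} [MetricSpace X] [CompactSpace X] [Nonempty X] [MeasurableSpace X]
    [BorelSpace X] {ι : Type} [Fintype ι] [Nonempty ι] (Q : ι → Set X)
    (hQm : ∀ i, MeasurableSet (Q i)) (hQc : ∀ x, ∃ i, x ∈ Q i) (F : Bool → ι → X → X)
    (hF : ∀ b i, ∀ x ∈ Q i, ∀ y ∈ Q i, dist (F b i x) (F b i y) = dist x y)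
    (hd : ∀ b i b' i' x x', x ∈ Q i → x' ∈ Q i' → F b i x = F b' i' x' → b = b' ∧ i = i') :
    ∃ (n m : ℕ) (A C : Fin n → Set X) (B D : Fin m → Set X)
          (f : Fin n → X → X) (g : Fin m → X → X),
        1 ≤ n ∧ 1 ≤ m ∧
        (∀ i j : Fin n, i ≠ j → Disjoint (A i) (A j)) ∧
        (∀ i j : Fin m, i ≠ j → Disjoint (B i) (B j)) ∧
        (∀ (i : Fin n) (j : Fin m), Disjoint (A i) (B j)) ∧
        (∀ i : Fin n, MeasurableSet (A i)) ∧
        (∀ j : Fin m, MeasurableSet (B j)) ∧
        (∀ i : Fin n, Set.BijOn (f i) (A i) (C i) ∧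
          ∀ x ∈ A i, ∀ y ∈ A i, dist (f i x) (f i y) = dist x y) ∧
        (∀ j : Fin m, Set.BijOn (g j) (B j) (D j) ∧
          ∀ x ∈ B j, ∀ y ∈ B j, dist (g j x) (g j y) = dist x y) ∧
        (⋃ i, C i) = Set.univ ∧
        (⋃ j, D j) = Set.univ := by
  classical
  let e : Fin (Fintype.card ι) ≃ ι := (Fintype.equivFin ι).symm
  have hinj : ∀ b i, Set.InjOn (F b i) (Q i) := by
    intro b i x hx y hy hxy
    have h1 := hF b i x hx y hy
    rw [hxy, dist_self] at h1
    exact dist_eq_zero.1 h1.symm
  have hcont : ∀ b i, ContinuousOn (F b i) (Q i) := by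
    intro b i x hx
    rw [Metric.continuousWithinAt_iff]
    intro ε hε
    exact ⟨ε, hε, fun {y} hy hyx => by rw [hF b i y hy x hx]; exact hyx⟩
  have hmeas : ∀ b i, MeasurableSet (F b i '' Q i) := fun b i =>
    (hQm i).image_of_continuousOn_injOn (hcont b i) (hinj b i)
  have hdis : ∀ b i b' i', (b, i) ≠ (b', i') → Disjoint (F b i '' Q i) (F b' i' '' Q i') := by
    intro b i b' i' hne
    rw [Set.disjoint_left]
    rintro z ⟨x, hx, rfl⟩ ⟨x', hx', h⟩
    obtain ⟨h1, h2⟩ := hd b' i' b i x' x hx' hx h
    exact hne (by rw [h1, h2])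
  have hbij : ∀ b i, Set.BijOn (F b i) (Q i) (F b i '' Q i) := fun b i => (hinj b i).bijOn_image
  have hinv : ∀ b i, Set.BijOn (Function.invFunOn (F b i) (Q i)) (F b i '' Q i) (Q i) ∧
      ∀ x ∈ F b i '' Q i, ∀ y ∈ F b i '' Q i,
        dist (Function.invFunOn (F b i) (Q i) x) (Function.invFunOn (F b i) (Q i) y)
          = dist x y := by
    intro b i
    have h1 := (hbij b i).invOn_invFunOn
    refine ⟨(hbij b i).symm h1.symm, ?_⟩
    rintro x ⟨x', hx', rfl⟩ y ⟨y', hy', rfl⟩
    rw [h1.1 hx', h1.1 hy', hF b i x' hx' y' hy']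
  have hcard : 1 ≤ Fintype.card ι := Fintype.card_pos
  refine ⟨Fintype.card ι, Fintype.card ι, fun k => F false (e k) '' Q (e k), fun k => Q (e k),
    fun k => F true (e k) '' Q (e k), fun k => Q (e k),
    fun k => Function.invFunOn (F false (e k)) (Q (e k)),
    fun k => Function.invFunOn (F true (e k)) (Q (e k)), hcard, hcard, ?_, ?_, ?_, ?_, ?_, ?_, ?_,
    ?_, ?_⟩
  · intro i j hij
    exact hdis _ _ _ _ (fun h => hij (e.injective (Prod.ext_iff.1 h).2))
  · intro i j hij
    exact hdis _ _ _ _ (fun h => hij (e.injective (Prod.ext_iff.1 h).2))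
  · intro i j
    exact hdis _ _ _ _ (fun h => absurd (Prod.ext_iff.1 h).1 (by simp))
  · intro i; exact hmeas _ _
  · intro i; exact hmeas _ _
  · intro i; exact hinv _ _
  · intro i; exact hinv _ _
  · refine Set.eq_univ_of_forall fun x => ?_
    obtain ⟨i, hi⟩ := hQc x
    exact Set.mem_iUnion.2 ⟨e.symm i, by simpa using hi⟩
  · refine Set.eq_univ_of_forall fun x => ?_
    obtain ⟨i, hi⟩ := hQc x
    exact Set.mem_iUnion.2 ⟨e.symm i, by simpa using hi⟩

/-! ### Topology -/

theorem isOpen_of_agr {U : Set Sq} (h : ∀ x ∈ U, ∃ N, ∀ y, Agr N x y → y ∈ U) : IsOpen U := by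
  rw [isOpen_iff_forall_mem_open]
  intro x hx
  obtain ⟨N, hN⟩ := h x hx
  refine ⟨PiNat.cylinder x N, fun y hy => hN y (fun k hk => ?_),
    PiNat.isOpen_cylinder (fun _ => Bool × Bool) x N, PiNat.self_mem_cylinder x N⟩
  exact (PiNat.mem_cylinder_iff.1 hy k hk).symm

theorem isClosed_good : IsClosed {x : Sq | Good x} := by
  rw [← isOpen_compl_iff]
  apply isOpen_of_agr
  intro x hx
  simp only [Set.mem_compl_iff, Set.mem_ofPred_eq, Good] at hx
  push Not at hx
  obtain ⟨l, k, hl, hk, hne⟩ := hx
  have hlk := lt_bd x l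
  refine ⟨k + 1, fun y hy => ?_⟩
  intro hg
  have hl' : IsFst y l := hl.of_agr (by omega) hy
  have hbd : bd x l = bd y l := bd_congr (fun j hj => by rw [hy j (by omega)])
  have h1 := hg l k hl' (by rw [← hbd]; exact hk)
  rw [← hy k (by omega)] at h1
  exact hne h1

theorem pc_open_or_closed (i : Ix) : IsOpen (Pc i) ∨ IsClosed (Pc i) := by
  match i with
  | none =>
    right
    rw [← isOpen_compl_iff]
    apply isOpen_of_agr
    intro x hx
    simp only [Pc, Set.mem_compl_iff, Set.mem_ofPred_eq] at hx
    push Not at hx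
    obtain ⟨k, hk⟩ := hx
    refine ⟨k + 1, fun y hy hc => hk ?_⟩
    rw [hy k (by omega)]
    exact hc k
  | some none =>
    left
    apply isOpen_of_agr
    rintro x ⟨l, hl, j, hj, hx⟩
    exact ⟨l + 1, fun y hy => ⟨l, hl.of_agr (by omega) hy, j, hj, by rw [← hy j (by omega)]; exact hx⟩⟩
  | some (some a) =>
    left
    apply isOpen_of_agr
    rintro x ⟨l, hl, h0, h1, h2⟩
    exact ⟨l + 2, fun y hy => ⟨l, hl.of_agr (by omega) hy,
      fun j hj => by rw [← hy j (by omega)]; exact h0 j hj,
      by rw [← hy l (by omega)]; exact h1, by rw [← hy (l + 1) (by omega)]; exact h2⟩⟩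

/-! ### The space -/

/-- The space. -/
def Sp : Type := {x : Sq // Good x}

attribute [local instance] PiNat.metricSpace

theorem dist_congr {x y x' y' : Sq} (h : ∀ N, Agr N x y ↔ Agr N x' y') :
    dist x' y' = dist x y := by
  have key : ∀ z w z' w' : Sq, (∀ N, Agr N z w ↔ Agr N z' w') → z = w → z' = w' := by
    intro z w z' w' hh hzw
    funext k
    exact (hh (k + 1)).1 (fun j _ => by rw [hzw]) k (by omega)
  by_cases hxy : x = y
  · have h2 := key x y x' y' h hxy
    rw [hxy, h2, dist_self, dist_self]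
  · have hxy' : x' ≠ y' := fun h2 => hxy (key x' y' x y (fun N => (h N).symm) h2)
    have h3 : PiNat.firstDiff x' y' = PiNat.firstDiff x y := by
      have ag : ∀ (z w : Sq), z ≠ w → ∀ N, Agr N z w ↔ N ≤ PiNat.firstDiff z w := by
        intro z w hzw N
        rw [← PiNat.mem_cylinder_iff_le_firstDiff hzw N]
        exact PiNat.mem_cylinder_iff.symm
      apply le_antisymm
      · exact (ag x y hxy _).1 ((h _).2 ((ag x' y' hxy' _).2 le_rfl))
      · exact (ag x' y' hxy' _).1 ((h _).1 ((ag x y hxy _).2 le_rfl))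
    have e1 : dist x y = (1 / 2 : ℝ) ^ PiNat.firstDiff x y := PiNat.dist_eq_of_ne hxy
    have e2 : dist x' y' = (1 / 2 : ℝ) ^ PiNat.firstDiff x' y' := PiNat.dist_eq_of_ne hxy'
    rw [e1, e2, h3]

noncomputable instance : MetricSpace Sp := inferInstanceAs (MetricSpace {x : Sq // Good x})

instance : CompactSpace Sp := by
  have h : IsCompact {x : Sq | Good x} := isClosed_good.isCompact
  exact isCompact_iff_compactSpace.1 h

instance : Nonempty Sp :=
  ⟨⟨fun _ => (false, false), fun _ _ _ _ => rfl⟩⟩

open Classical in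
/-- The maps on the space. -/
noncomputable def Ms (b : Bool) (i : Ix) (x : Sp) : Sp :=
  if h : Good (Mp b i x.1) then ⟨Mp b i x.1, h⟩ else x

theorem Ms_val {b : Bool} {i : Ix} {x : Sp} (hx : x.1 ∈ Pc i) : (Ms b i x).1 = Mp b i x.1 := by
  have h : Ms b i x = (⟨Mp b i x.1, Mp_good x.2 hx⟩ : {x : Sq // Good x}) :=
    dif_pos (Mp_good x.2 hx)
  rw [h]

theorem Ms_dist {b : Bool} {i : Ix} {x y : Sp} (hx : x.1 ∈ Pc i) (hy : y.1 ∈ Pc i) :
    dist (Ms b i x) (Ms b i y) = dist x y := by
  have h1 : dist (Ms b i x) (Ms b i y) = dist (Ms b i x).1 (Ms b i y).1 := rfl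
  have h2 : dist x y = dist x.1 y.1 := rfl
  rw [h1, h2, Ms_val hx, Ms_val hy]
  exact dist_congr (Mp_agr x.2 y.2 hx hy)

theorem main :
    ∃ (X : Type) (_ : MetricSpace X) (_ : CompactSpace X) (_ : Nonempty X)
      (_ : MeasurableSpace X) (_ : BorelSpace X),
      ∃ (n m : ℕ) (A C : Fin n → Set X) (B D : Fin m → Set X)
          (f : Fin n → X → X) (g : Fin m → X → X),
        1 ≤ n ∧ 1 ≤ m ∧
        (∀ i j : Fin n, i ≠ j → Disjoint (A i) (A j)) ∧
        (∀ i j : Fin m, i ≠ j → Disjoint (B i) (B j)) ∧
        (∀ (i : Fin n) (j : Fin m), Disjoint (A i) (B j)) ∧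
        (∀ i : Fin n, MeasurableSet (A i)) ∧
        (∀ j : Fin m, MeasurableSet (B j)) ∧
        (∀ i : Fin n, Set.BijOn (f i) (A i) (C i) ∧
          ∀ x ∈ A i, ∀ y ∈ A i, dist (f i x) (f i y) = dist x y) ∧
        (∀ j : Fin m, Set.BijOn (g j) (B j) (D j) ∧
          ∀ x ∈ B j, ∀ y ∈ B j, dist (g j x) (g j y) = dist x y) ∧
        (⋃ i, C i) = Set.univ ∧
        (⋃ j, D j) = Set.univ := by
  let _ : MeasurableSpace Sp := borel Sp
  have _ : BorelSpace Sp := ⟨rfl⟩
  refine ⟨Sp, inferInstance, inferInstance, inferInstance, inferInstance, inferInstance, ?_⟩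
  have hval : Continuous (fun x : Sp => x.1) := continuous_subtype_val
  refine paradox_of (X := Sp) (ι := Ix) (fun i => {x : Sp | x.1 ∈ Pc i}) ?_ ?_ Ms ?_ ?_
  · intro i
    rcases pc_open_or_closed i with h | h
    · exact (h.preimage hval).measurableSet
    · exact (h.preimage hval).measurableSet
  · intro x
    exact exists_mem_Pc x.1
  · intro b i x hx y hy
    exact Ms_dist hx hy
  · intro b i b' i' x x' hx hx' h
    have h1 : (Ms b i x).1 = (Ms b' i' x').1 := congrArg (fun z : Sp => z.1) h
    rw [Ms_val hx, Ms_val hx'] at h1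
    exact Mp_disj x.2 x'.2 hx hx' h1

end Pool.Agent.Lib.MP_91c8d1_an
end
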